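import Pool.Agent.H6.RCQ.Defs
import Pool.Agent.H6.RCQ.Util

/-!
# Project RCQ: tools for the modules D5 and D6
-/

set_option autoImplicit false

namespace Pool.Agent.H67.RCQ

open Pool.Agent.H39.RC
open Pool.Agent.H6.RCQ
open Classical

variable {V : Type}

/-- five vertices are not pairwise adjacent -/
theorem exists_nonadj {G : SimpleGraph V} (hG : PG G) (S : Finset V) (hS : 5 ≤ S.card) :
    ∃ u ∈ S, ∃ v ∈ S, u ≠ v ∧ ¬ G.Adj u v := by
  by_contra hc
  push Not at hc
  obtain ⟨T, hT, hcard⟩ := Finset.exists_subset_card_eq hS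
  have e := Finset.equivFinOfCardEq hcard
  apply hG.k5
  refine hasMinor_k5 (fun i => {((e.symm i : T) : V)}) (fun i => con_single _) ?_ ?_
  · intro i j hij
    rw [Set.disjoint_singleton]
    intro h
    have := e.symm.injective (Subtype.ext h)
    exact absurd this hij.ne
  · intro i j hij
    refine ⟨_, rfl, _, rfl, hc _ (hT (e.symm i).2) _ (hT (e.symm j).2) ?_⟩
    intro h
    have := e.symm.injective (Subtype.ext h)
    exact absurd this hij.ne

/-- the number of non-neighbours -/
theorem card_U {G : SimpleGraph V} (R : Finset V) (x : V) :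
    R.card ≤ (D G R x).card + (U G R x).card + 1 := by
  have h : R ⊆ D G R x ∪ U G R x ∪ {x} := by
    intro v hv
    unfold D U
    simp only [Finset.mem_union, Finset.mem_filter, Finset.mem_singleton]
    by_cases h1 : v = x
    · exact Or.inr h1
    · by_cases h2 : G.Adj x v
      · exact Or.inl (Or.inl ⟨hv, h2⟩)
      · exact Or.inl (Or.inr ⟨hv, h1, h2⟩)
  calc R.card ≤ (D G R x ∪ U G R x ∪ {x}).card := Finset.card_le_card h
    _ ≤ (D G R x ∪ U G R x).card + ({x} : Finset V).card := Finset.card_union_le _ _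
    _ ≤ (D G R x).card + (U G R x).card + 1 := by
        rw [Finset.card_singleton]
        exact Nat.add_le_add_right (Finset.card_union_le _ _) _

/-- non-neighbours are linked to the neighbours avoiding `x` -/
theorem rch_U {G : SimpleGraph V} {R : Finset V} (hl : Lf G R) {x u t : V} (hu : u ∈ U G R x)
    (ht : t ∈ D G R x) : Rch G {x} u t := by
  unfold U at hu
  unfold D at ht
  rw [Finset.mem_filter] at hu ht
  have hne : u ≠ t := by
    rintro rfl
    exact hu.2.2 ht.2
  rcases hl.lk u hu.1 t ht.1 hne with h | ⟨c, -, h1, h2⟩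
  · exact Or.inl h
  · refine Or.inr ⟨c, ?_, h1, h2⟩
    rintro hc
    rw [Set.mem_singleton_iff] at hc
    subst hc
    exact hu.2.2 h1.symm

end Pool.Agent.H67.RCQ
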