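import Pool.Agent.H6.RCQ.Stmts3
import Pool.Agent.H6.RCQ.Stmts4
import Pool.Agent.H67.RCQ.Tools

/-!
# Project RCQ, module D5: there are no vertices of degree five
-/

set_option autoImplicit false

namespace Pool.Agent.H67.RCQ.D5

open Pool.Agent.H39.RC
open Pool.Agent.H6.RCQ
open Pool.Agent.H67.RCQ
open Classical

variable {V : Type} {G : SimpleGraph V} {R : Finset V} {x : V}

/-- the canonical position -/
def Can (G : SimpleGraph V) (R : Finset V) (x : V) (t : ℕ → V) (z z' : V) : Prop :=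
  t 1 = z ∧ G.Adj (t 1) (t 0) ∧ G.Adj (t 1) (t 2) ∧
    ((z' ∉ D G R x ∧ G.Adj z' (t 3) ∧ G.Adj z' (t 4)) ∨ (z' = t 3 ∧ G.Adj (t 3) (t 4)))

theorem rot (hCR : CRStmt) (hW : W5SStmt) {t : ℕ → V} (h : W5 G R x t) :
    W5 G R x (fun i => t ((i + 1) % 5)) :=
  hW V G R x _ h.s5 (hCR V G x _ 5 t h.circ).1

theorem refl (hCR : CRStmt) (hW : W5SStmt) {t : ℕ → V} (h : W5 G R x t) :
    W5 G R x (fun i => t (5 - 1 - i)) :=
  hW V G R x _ h.s5 (hCR V G x _ 5 t h.circ).2

/-- any element of the circle can be moved to position 1 -/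
theorem rot1 (hCR : CRStmt) (hW : W5SStmt) {t : ℕ → V} (h : W5 G R x t) {i : ℕ} (hi : i < 5) :
    ∃ t', W5 G R x t' ∧ t' 1 = t i := by
  have h1 := rot hCR hW h
  have h2 := rot hCR hW h1
  have h3 := rot hCR hW h2
  have h4 := rot hCR hW h3
  interval_cases i
  · exact ⟨_, h4, rfl⟩
  · exact ⟨_, h, rfl⟩
  · exact ⟨_, h1, rfl⟩
  · exact ⟨_, h2, rfl⟩
  · exact ⟨_, h3, rfl⟩

/-- the reflection fixing position 1 -/
theorem refl1 (hCR : CRStmt) (hW : W5SStmt) {t : ℕ → V} (h : W5 G R x t) :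
    ∃ t', W5 G R x t' ∧ t' 0 = t 2 ∧ t' 1 = t 1 ∧ t' 2 = t 0 ∧ t' 3 = t 4 ∧ t' 4 = t 3 :=
  ⟨_, rot hCR hW (rot hCR hW (refl hCR hW h)), rfl, rfl, rfl, rfl, rfl⟩

theorem nadj {t : ℕ → V} (h : W5 G R x t) : ¬ G.Adj (t 0) (t 2) ∧ ¬ G.Adj (t 0) (t 3) ∧
    ¬ G.Adj (t 1) (t 3) ∧ ¬ G.Adj (t 1) (t 4) ∧ ¬ G.Adj (t 2) (t 4) := by
  refine ⟨fun e => ?_, fun e => ?_, fun e => ?_, fun e => ?_, fun e => ?_⟩
  · have := h.adj 0 (by norm_num) 2 (by norm_num) e
    omega
  · have := h.adj 0 (by norm_num) 3 (by norm_num) e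
    omega
  · have := h.adj 1 (by norm_num) 3 (by norm_num) e
    omega
  · have := h.adj 1 (by norm_num) 4 (by norm_num) e
    omega
  · have := h.adj 2 (by norm_num) 4 (by norm_num) e
    omega

theorem wins {t : ℕ → V} (h : W5 G R x t) {w : V} (hw : w ≠ x) (hw' : w ∉ D G R x) :
    ∀ i < 5, ∀ j < 5, G.Adj w (t i) → G.Adj w (t j) → j = i ∨ j = (i + 1) % 5 ∨
      i = (j + 1) % 5 := by
  obtain ⟨m, hm, hm'⟩ := h.win w hw hw'
  intro i hi j hj h1 h2
  have e1 := hm' i hi h1
  have e2 := hm' j hj h2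
  omega

/-- an element of the circle with a partner covering the rest -/
theorem canI (hCR : CRStmt) (hW : W5SStmt) {t : ℕ → V} (h : W5 G R x t) {z z' : V}
    (hz' : z' ≠ x) (hz : t 1 = z)
    (hcov : ∀ s ∈ D G R x, s = z ∨ G.Adj z s ∨ s = z' ∨ G.Adj z' s) :
    (∃ t', W5 G R x t' ∧ Can G R x t' z z') ∨ (∃ t', W5 G R x t' ∧ Can G R x t' z' z) := by
  obtain ⟨n02, n03, n13, n14, n24⟩ := nadj h
  have inj := h.circ.inj
  have mem := h.circ.mem
  subst hz
  have c0 := hcov _ (mem 0 (by norm_num))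
  have c2 := hcov _ (mem 2 (by norm_num))
  have c3 := hcov _ (mem 3 (by norm_num))
  have c4 := hcov _ (mem 4 (by norm_num))
  have d01 : t 0 ≠ t 1 := fun e => by have := inj 0 (by norm_num) 1 (by norm_num) e; omega
  have d21 : t 2 ≠ t 1 := fun e => by have := inj 2 (by norm_num) 1 (by norm_num) e; omega
  have d31 : t 3 ≠ t 1 := fun e => by have := inj 3 (by norm_num) 1 (by norm_num) e; omega
  have d41 : t 4 ≠ t 1 := fun e => by have := inj 4 (by norm_num) 1 (by norm_num) e; omega
  have d30 : t 3 ≠ t 0 := fun e => by have := inj 3 (by norm_num) 0 (by norm_num) e; omega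
  have d42 : t 4 ≠ t 2 := fun e => by have := inj 4 (by norm_num) 2 (by norm_num) e; omega
  have d23 : t 2 ≠ t 3 := fun e => by have := inj 2 (by norm_num) 3 (by norm_num) e; omega
  have d04 : t 0 ≠ t 4 := fun e => by have := inj 0 (by norm_num) 4 (by norm_num) e; omega
  have c3' : t 3 = z' ∨ G.Adj z' (t 3) := by
    rcases c3 with e | e | e | e
    · exact absurd e d31
    · exact absurd e n13
    · exact Or.inl e
    · exact Or.inr e
  have c4' : t 4 = z' ∨ G.Adj z' (t 4) := by
    rcases c4 with e | e | e | e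
    · exact absurd e d41
    · exact absurd e n14
    · exact Or.inl e
    · exact Or.inr e
  by_cases hD : z' ∈ D G R x
  · obtain ⟨j, hj, rfl⟩ := h.circ.all z' hD
    interval_cases j
    · exfalso
      rcases c3' with e | e
      · exact d30 e
      · exact n03 e
    · exfalso
      rcases c3' with e | e
      · exact d31 e
      · exact n13 e
    · exfalso
      rcases c4' with e | e
      · exact d42 e
      · exact n24 e
    · have a34 : G.Adj (t 3) (t 4) := by
        rcases c4' with e | e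
        · have := inj 4 (by norm_num) 3 (by norm_num) e
          omega
        · exact e
      have a10 : G.Adj (t 1) (t 0) := by
        rcases c0 with e | e | e | e
        · exact absurd e d01
        · exact e
        · exact absurd e.symm d30
        · exact absurd e.symm n03
      by_cases a12 : G.Adj (t 1) (t 2)
      · exact Or.inl ⟨t, h, rfl, a10, a12, Or.inr ⟨rfl, a34⟩⟩
      · have a32 : G.Adj (t 3) (t 2) := by
          rcases c2 with e | e | e | e
          · exact absurd e d21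
          · exact absurd e a12
          · exact absurd e d23
          · exact e
        exact Or.inr ⟨_, refl hCR hW h, rfl, a34, a32, Or.inr ⟨rfl, a10⟩⟩
    · have a43 : G.Adj (t 4) (t 3) := by
        rcases c3' with e | e
        · have := inj 4 (by norm_num) 3 (by norm_num) e.symm
          omega
        · exact e
      have a12 : G.Adj (t 1) (t 2) := by
        rcases c2 with e | e | e | e
        · exact absurd e d21
        · exact e
        · exact absurd e.symm d42
        · exact absurd e.symm n24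
      obtain ⟨t', h', e0, e1, e2, e3, e4⟩ := refl1 hCR hW h
      by_cases a10 : G.Adj (t 1) (t 0)
      · refine Or.inl ⟨t', h', e1, ?_, ?_, Or.inr ⟨e3.symm, ?_⟩⟩
        · rw [e1, e0]; exact a12
        · rw [e1, e2]; exact a10
        · rw [e3, e4]; exact a43
      · have a40 : G.Adj (t 4) (t 0) := by
          rcases c0 with e | e | e | e
          · exact absurd e d01
          · exact absurd e a10
          · exact absurd e d04
          · exact e
        refine Or.inr ⟨_, refl hCR hW h', e3, ?_, ?_, Or.inr ⟨e1.symm, ?_⟩⟩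
        · show G.Adj (t' 3) (t' 4)
          rw [e3, e4]; exact a43
        · show G.Adj (t' 3) (t' 2)
          rw [e3, e2]; exact a40
        · show G.Adj (t' 1) (t' 0)
          rw [e1, e0]; exact a12
  · have ne3 : t 3 ≠ z' := by
      rintro rfl
      exact hD (mem 3 (by norm_num))
    have ne4 : t 4 ≠ z' := by
      rintro rfl
      exact hD (mem 4 (by norm_num))
    have ne0 : t 0 ≠ z' := by
      rintro rfl
      exact hD (mem 0 (by norm_num))
    have ne2 : t 2 ≠ z' := by
      rintro rfl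
      exact hD (mem 2 (by norm_num))
    have a3 : G.Adj z' (t 3) := c3'.resolve_left ne3
    have a4 : G.Adj z' (t 4) := c4'.resolve_left ne4
    have w := wins h hz' hD
    have a10 : G.Adj (t 1) (t 0) := by
      rcases c0 with e | e | e | e
      · exact absurd e d01
      · exact e
      · exact absurd e ne0
      · have := w 0 (by norm_num) 3 (by norm_num) e a3
        omega
    have a12 : G.Adj (t 1) (t 2) := by
      rcases c2 with e | e | e | e
      · exact absurd e d21
      · exact e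
      · exact absurd e ne2
      · have := w 2 (by norm_num) 4 (by norm_num) e a4
        omega
    exact Or.inl ⟨t, h, rfl, a10, a12, Or.inl ⟨hD, a3, a4⟩⟩

/-- two closed neighbourhoods covering the circle -/
theorem canon (hCR : CRStmt) (hW : W5SStmt) {t : ℕ → V} (h : W5 G R x t) {z z' : V}
    (hz : z ≠ x) (hz' : z' ≠ x)
    (hcov : ∀ s ∈ D G R x, s = z ∨ G.Adj z s ∨ s = z' ∨ G.Adj z' s) :
    (∃ t', W5 G R x t' ∧ Can G R x t' z z') ∨ (∃ t', W5 G R x t' ∧ Can G R x t' z' z) := by
  by_cases hD : z ∈ D G R x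
  · obtain ⟨j, hj, rfl⟩ := h.circ.all z hD
    obtain ⟨t', h', e⟩ := rot1 hCR hW h hj
    exact canI hCR hW h' hz' e hcov
  by_cases hD' : z' ∈ D G R x
  · obtain ⟨j, hj, rfl⟩ := h.circ.all z' hD'
    obtain ⟨t', h', e⟩ := rot1 hCR hW h hj
    refine (canI hCR hW h' hz e (fun s hs => ?_)).symm
    rcases hcov s hs with h1 | h1 | h1 | h1
    · exact Or.inr (Or.inr (Or.inl h1))
    · exact Or.inr (Or.inr (Or.inr h1))
    · exact Or.inl h1
    · exact Or.inr (Or.inl h1)
  exfalso
  obtain ⟨m, hm, w⟩ := h.win z hz hD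
  obtain ⟨m', hm', w'⟩ := h.win z' hz' hD'
  have key : ∀ i < 5, i = m ∨ i = (m + 1) % 5 ∨ i = m' ∨ i = (m' + 1) % 5 := by
    intro i hi
    have hmem := h.circ.mem i hi
    rcases hcov _ hmem with e | e | e | e
    · rw [e] at hmem
      exact absurd hmem hD
    · rcases w i hi e with e | e
      · exact Or.inl e
      · exact Or.inr (Or.inl e)
    · rw [e] at hmem
      exact absurd hmem hD'
    · rcases w' i hi e with e | e
      · exact Or.inr (Or.inr (Or.inl e))
      · exact Or.inr (Or.inr (Or.inr e))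
  have k0 := key 0 (by norm_num)
  have k1 := key 1 (by norm_num)
  have k2 := key 2 (by norm_num)
  have k3 := key 3 (by norm_num)
  have k4 := key 4 (by norm_num)
  omega

theorem d5 (hCI : CIStmt) (hCR : CRStmt) (hW : W5SStmt) (hGL : GLStmt) (hB : K5BStmt)
    (hC : K5CStmt) (hD : K5DStmt) (hE : K5EStmt) (hF : K5FStmt) (hG : K5GStmt) : D5Stmt := by
  intro V G R hS x
  by_contra hc
  have hcard : (D G R x).card = 5 := by
    have := hS.deg x
    omega
  have hU : 5 ≤ (U G R x).card := by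
    have h1 := card_U (G := G) R x
    have h2 := hS.card
    omega
  obtain ⟨u, hu, v, hv, huv, hadj⟩ := exists_nonadj hS.lf.pg _ hU
  have hDx : ∀ d ∈ D G R x, G.Adj x d := by
    intro d hd
    unfold D at hd
    exact (Finset.mem_filter.1 hd).2
  obtain ⟨t0, ht0⟩ := hCI V G x (D G R x) hS.lf.pg hDx
  rw [hcard] at ht0
  have hW0 := hW V G R x t0 hS ht0
  have hux : u ≠ x ∧ ¬ G.Adj x u := by
    unfold U at hu
    exact (Finset.mem_filter.1 hu).2
  have hvx : v ≠ x ∧ ¬ G.Adj x v := by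
    unfold U at hv
    exact (Finset.mem_filter.1 hv).2
  have huD : u ∉ D G R x := fun h => hux.2 (hDx u h)
  have hvD : v ∉ D G R x := fun h => hvx.2 (hDx v h)
  have hne : (D G R x).Nonempty := by
    rw [← Finset.card_pos]
    omega
  have key := hGL V G (D G R x) x u v hS.lf.pg hux.1.symm hvx.1.symm huv hadj huD hvD hDx
    (fun t ht => rch_U hS.lf hu ht) (fun t ht => rch_U hS.lf hv ht) hne
  have hxD : ∀ t ∈ D G R x, t ≠ x := fun t ht => (hDx t ht).ne'
  -- no vertex of the circle is adjacent to both `u` and another far one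
  rcases key with ⟨a, ha, b, hb, ba, bb, hab, nab, cov⟩ | ⟨c, c', hc1, uc, vc, hc2, uc', vc', cov⟩ |
    ⟨c, a, ha, hc1, uc, vc, ba, cov⟩ | ⟨a, ha, ba, cov⟩
  · -- both bad
    have main : ∀ z z' t, W5 G R x t → z ∈ D G R x → z' ∈ D G R x → Bad G x u v z →
        Bad G x u v z' → Can G R x t z z' → False := by
      rintro z z' t ht hz hz' bz bz' ⟨rfl, a10, a12, ⟨h1, -, -⟩ | ⟨rfl, a34⟩⟩
      · exact h1 hz'
      have hK : K5 G R x t u v := ⟨ht, a10, a12, hu, hv, huv, hadj⟩
      by_cases h1 : G.Adj u (t 1)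
      · exact hF V G R x t u v hK bz bz' a34 h1
      by_cases h2 : G.Adj v (t 1)
      · have hK' : K5 G R x t v u := ⟨ht, a10, a12, hv, hu, huv.symm, fun e => hadj e.symm⟩
        exact hF V G R x t v u hK' (fun c e1 e2 e3 => bz c e1 e3 e2)
          (fun c e1 e2 e3 => bz' c e1 e3 e2) a34 h2
      exact hG V G R x t u v hK bz bz' a34 h1 h2
    rcases canon hCR hW hW0 (hxD a ha) (hxD b hb) cov with ⟨t, ht, hcan⟩ | ⟨t, ht, hcan⟩
    · exact main a b t ht ha hb ba bb hcan
    · exact main b a t ht hb ha bb ba hcan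
  · -- two common neighbours
    have main : ∀ z z' t, W5 G R x t → z ≠ x → z' ≠ x → G.Adj u z → G.Adj v z → G.Adj u z' →
        G.Adj v z' → Can G R x t z z' → False := by
      rintro z z' t ht hz hz' uz vz uz' vz' ⟨rfl, a10, a12, ⟨h1, a3, a4⟩ | ⟨rfl, a34⟩⟩
      · have hK : K5 G R x t u v := ⟨ht, a10, a12, hu, hv, huv, hadj⟩
        exact hB V G R x t u v z' hK uz vz ⟨hz', h1, uz'.symm, vz'.symm, a3, a4, a4⟩
      · have := wins ht hux.1 huD 1 (by norm_num) 3 (by norm_num) uz uz'
        omega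
    rcases canon hCR hW hW0 hc1 hc2 cov with ⟨t, ht, hcan⟩ | ⟨t, ht, hcan⟩
    · exact main c c' t ht hc1 hc2 uc vc uc' vc' hcan
    · exact main c' c t ht hc2 hc1 uc' vc' uc vc hcan
  · -- one common neighbour, one bad vertex
    rcases canon hCR hW hW0 hc1 (hxD a ha) cov with ⟨t, ht, hcan⟩ | ⟨t, ht, hcan⟩
    · obtain ⟨rfl, a10, a12, ⟨h1, -, -⟩ | ⟨rfl, a34⟩⟩ := hcan
      · exact h1 ha
      · exact hC V G R x t u v ⟨ht, a10, a12, hu, hv, huv, hadj⟩ uc vc ba
    · obtain ⟨rfl, a10, a12, ⟨h1, a3, a4⟩ | ⟨rfl, a34⟩⟩ := hcan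
      · exact hD V G R x t u v c ⟨ht, a10, a12, hu, hv, huv, hadj⟩ ba
          ⟨hc1, h1, uc.symm, vc.symm, a3, a4, a4⟩
      · exact hE V G R x t u v ⟨ht, a10, a12, hu, hv, huv, hadj⟩ ba uc vc
  · -- one bad vertex
    have main : ∀ t, W5 G R x t → Can G R x t a a → False := by
      rintro t ht ⟨e1, a10, a12, ⟨h1, -, -⟩ | ⟨e2, a34⟩⟩
      · exact h1 ha
      · have := ht.circ.inj 1 (by norm_num) 3 (by norm_num) (e1.trans e2)
        omega
    rcases canon hCR hW hW0 (hxD a ha) (hxD a ha) (fun s hs => (cov s hs).imp_right Or.inl) with ⟨t, ht, hcan⟩ | ⟨t, ht, hcan⟩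
    · exact main t ht hcan
    · exact main t ht hcan

end Pool.Agent.H67.RCQ.D5
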