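import Pool.Agent.H6.RCQ.Stmts3
import Pool.Agent.H6.RCQ.Stmts4
import Pool.Agent.H67.RCQ.Tools

/-!
# Project RCQ, module D6: there are no vertices of degree six
-/

set_option autoImplicit false

namespace Pool.Agent.H67.RCQ.D6

open Pool.Agent.H39.RC
open Pool.Agent.H6.RCQ
open Pool.Agent.H67.RCQ
open Classical

variable {V : Type} {G : SimpleGraph V} {R : Finset V} {x : V}

/-- canonical position, both inside -/
def CanA (G : SimpleGraph V) (t : ℕ → V) (z z' : V) : Prop :=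
  t 1 = z ∧ t 4 = z' ∧ G.Adj (t 1) (t 0) ∧ G.Adj (t 1) (t 2) ∧ G.Adj (t 4) (t 3) ∧
    G.Adj (t 4) (t 5)

/-- canonical position, `z` outside, `z'` inside -/
def CanB (G : SimpleGraph V) (R : Finset V) (x : V) (t : ℕ → V) (z z' : V) : Prop :=
  t 4 = z' ∧ G.Adj (t 4) (t 3) ∧ G.Adj (t 4) (t 5) ∧ z ∉ D G R x ∧
    G.Adj z (t 0) ∧ G.Adj z (t 1) ∧ G.Adj z (t 2)

/-- canonical position, both outside -/
def CanC (G : SimpleGraph V) (R : Finset V) (x : V) (t : ℕ → V) (z z' : V) : Prop :=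
  z ∉ D G R x ∧ G.Adj z (t 0) ∧ G.Adj z (t 1) ∧ G.Adj z (t 2) ∧
  z' ∉ D G R x ∧ G.Adj z' (t 3) ∧ G.Adj z' (t 4) ∧ G.Adj z' (t 5)

theorem rot (hCR : CRStmt) (hW : W6SStmt) {t : ℕ → V} (h : W6 G R x t) :
    W6 G R x (fun i => t ((i + 1) % 6)) :=
  hW V G R x _ h.s6 (hCR V G x _ 6 t h.circ).1

/-- all rotations -/
theorem rotk (hCR : CRStmt) (hW : W6SStmt) {t : ℕ → V} (h : W6 G R x t) (k : ℕ) :
    ∃ t', W6 G R x t' ∧ ∀ i < 6, t' i = t ((i + k) % 6) := by
  induction k with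
  | zero =>
    refine ⟨t, h, fun i hi => ?_⟩
    rw [Nat.add_zero, Nat.mod_eq_of_lt hi]
  | succ k ih =>
    obtain ⟨t', h', e⟩ := ih
    refine ⟨_, rot hCR hW h', fun i hi => ?_⟩
    rw [e _ (Nat.mod_lt _ (by norm_num))]
    congr 1
    omega

theorem nadj {t : ℕ → V} (h : W6 G R x t) : ¬ G.Adj (t 1) (t 3) ∧ ¬ G.Adj (t 1) (t 4) ∧
    ¬ G.Adj (t 1) (t 5) := by
  refine ⟨fun e => ?_, fun e => ?_, fun e => ?_⟩
  · have := h.adj 1 (by norm_num) 3 (by norm_num) e
    omega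
  · have := h.adj 1 (by norm_num) 4 (by norm_num) e
    omega
  · have := h.adj 1 (by norm_num) 5 (by norm_num) e
    omega

theorem neq {t : ℕ → V} (h : W6 G R x t) {i j : ℕ} (hi : i < 6) (hj : j < 6) (hij : i ≠ j) :
    t i ≠ t j := fun e => hij (h.circ.inj i hi j hj e)

/-- one of the two is inside -/
theorem canI (hCR : CRStmt) (hW : W6SStmt) {t : ℕ → V} (h : W6 G R x t) {z z' : V}
    (hz' : z' ≠ x) (hz : t 1 = z)
    (hcov : ∀ s ∈ D G R x, s = z ∨ G.Adj z s ∨ s = z' ∨ G.Adj z' s) :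
    (∃ t', W6 G R x t' ∧ CanA G t' z z') ∨ (∃ t', W6 G R x t' ∧ CanB G R x t' z' z) := by
  obtain ⟨n13, n14, n15⟩ := nadj h
  have mem := h.circ.mem
  subst hz
  have c0 := hcov _ (mem 0 (by norm_num))
  have c2 := hcov _ (mem 2 (by norm_num))
  have c3 := hcov _ (mem 3 (by norm_num))
  have c4 := hcov _ (mem 4 (by norm_num))
  have c5 := hcov _ (mem 5 (by norm_num))
  have d01 : t 0 ≠ t 1 := neq h (by norm_num) (by norm_num) (by norm_num)
  have d21 : t 2 ≠ t 1 := neq h (by norm_num) (by norm_num) (by norm_num)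
  have d31 : t 3 ≠ t 1 := neq h (by norm_num) (by norm_num) (by norm_num)
  have d41 : t 4 ≠ t 1 := neq h (by norm_num) (by norm_num) (by norm_num)
  have d51 : t 5 ≠ t 1 := neq h (by norm_num) (by norm_num) (by norm_num)
  have c3' : t 3 = z' ∨ G.Adj z' (t 3) := by
    rcases c3 with e | e | e | e
    · exact absurd e d31
    · exact absurd e n13
    · exact Or.inl e
    · exact Or.inr e
  have c4' : t 4 = z' ∨ G.Adj z' (t 4) := by
    rcases c4 with e | e | e | e
    · exact absurd e d41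
    · exact absurd e n14
    · exact Or.inl e
    · exact Or.inr e
  have c5' : t 5 = z' ∨ G.Adj z' (t 5) := by
    rcases c5 with e | e | e | e
    · exact absurd e d51
    · exact absurd e n15
    · exact Or.inl e
    · exact Or.inr e
  by_cases hD : z' ∈ D G R x
  · obtain ⟨j, hj, rfl⟩ := h.circ.all z' hD
    have k3 : 3 = j ∨ (3 = (j + 1) % 6 ∨ j = (3 + 1) % 6) := by
      rcases c3' with e | e
      · exact Or.inl (h.circ.inj 3 (by norm_num) j hj e)
      · exact Or.inr (h.adj j hj 3 (by norm_num) e)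
    have k5 : 5 = j ∨ (5 = (j + 1) % 6 ∨ j = (5 + 1) % 6) := by
      rcases c5' with e | e
      · exact Or.inl (h.circ.inj 5 (by norm_num) j hj e)
      · exact Or.inr (h.adj j hj 5 (by norm_num) e)
    have hj4 : j = 4 := by omega
    subst hj4
    have d34 : t 3 ≠ t 4 := neq h (by norm_num) (by norm_num) (by norm_num)
    have d54 : t 5 ≠ t 4 := neq h (by norm_num) (by norm_num) (by norm_num)
    have d04 : t 0 ≠ t 4 := neq h (by norm_num) (by norm_num) (by norm_num)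
    have d24 : t 2 ≠ t 4 := neq h (by norm_num) (by norm_num) (by norm_num)
    refine Or.inl ⟨t, h, rfl, rfl, ?_, ?_, ?_, ?_⟩
    · rcases c0 with e | e | e | e
      · exact absurd e d01
      · exact e
      · exact absurd e d04
      · have := h.adj 4 (by norm_num) 0 (by norm_num) e
        omega
    · rcases c2 with e | e | e | e
      · exact absurd e d21
      · exact e
      · exact absurd e d24
      · have := h.adj 4 (by norm_num) 2 (by norm_num) e
        omega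
    · rcases c3' with e | e
      · exact absurd e d34
      · exact e
    · rcases c5' with e | e
      · exact absurd e d54
      · exact e
  · have ne : ∀ i < 6, t i ≠ z' := by
      intro i hi e
      rw [← e] at hD
      exact hD (mem i hi)
    have a3 : G.Adj z' (t 3) := c3'.resolve_left (ne 3 (by norm_num))
    have a4 : G.Adj z' (t 4) := c4'.resolve_left (ne 4 (by norm_num))
    have a5 : G.Adj z' (t 5) := c5'.resolve_left (ne 5 (by norm_num))
    obtain ⟨m, hm, w⟩ := h.win z' hz' hD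
    have w3 := w 3 (by norm_num) a3
    have w4 := w 4 (by norm_num) a4
    have w5 := w 5 (by norm_num) a5
    have a10 : G.Adj (t 1) (t 0) := by
      rcases c0 with e | e | e | e
      · exact absurd e d01
      · exact e
      · exact absurd e (ne 0 (by norm_num))
      · have := w 0 (by norm_num) e
        omega
    have a12 : G.Adj (t 1) (t 2) := by
      rcases c2 with e | e | e | e
      · exact absurd e d21
      · exact e
      · exact absurd e (ne 2 (by norm_num))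
      · have := w 2 (by norm_num) e
        omega
    obtain ⟨t', h', e⟩ := rotk hCR hW h 3
    have e0 : t' 0 = t 3 := e 0 (by norm_num)
    have e1 : t' 1 = t 4 := e 1 (by norm_num)
    have e2 : t' 2 = t 5 := e 2 (by norm_num)
    have e3 : t' 3 = t 0 := e 3 (by norm_num)
    have e4 : t' 4 = t 1 := e 4 (by norm_num)
    have e5 : t' 5 = t 2 := e 5 (by norm_num)
    refine Or.inr ⟨t', h', e4, ?_, ?_, hD, ?_, ?_, ?_⟩
    · rw [e4, e3]; exact a10
    · rw [e4, e5]; exact a12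
    · rw [e0]; exact a3
    · rw [e1]; exact a4
    · rw [e2]; exact a5

/-- any element of the circle can be moved to position 1 -/
theorem rot1 (hCR : CRStmt) (hW : W6SStmt) {t : ℕ → V} (h : W6 G R x t) {i : ℕ} (hi : i < 6) :
    ∃ t', W6 G R x t' ∧ t' 1 = t i := by
  obtain ⟨t', h', e⟩ := rotk hCR hW h (i + 5)
  refine ⟨t', h', ?_⟩
  rw [e 1 (by norm_num)]
  congr 1
  omega

/-- two closed neighbourhoods covering the circle -/
theorem canon (hCR : CRStmt) (hW : W6SStmt) {t : ℕ → V} (h : W6 G R x t) {z z' : V}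
    (hz : z ≠ x) (hz' : z' ≠ x)
    (hcov : ∀ s ∈ D G R x, s = z ∨ G.Adj z s ∨ s = z' ∨ G.Adj z' s) :
    (∃ t', W6 G R x t' ∧ CanA G t' z z') ∨ (∃ t', W6 G R x t' ∧ CanB G R x t' z' z) ∨
      (∃ t', W6 G R x t' ∧ CanB G R x t' z z') ∨ (∃ t', W6 G R x t' ∧ CanC G R x t' z z') := by
  by_cases hD : z ∈ D G R x
  · obtain ⟨j, hj, rfl⟩ := h.circ.all z hD
    obtain ⟨t', h', e⟩ := rot1 hCR hW h hj
    rcases canI hCR hW h' hz' e hcov with h1 | h1
    · exact Or.inl h1
    · exact Or.inr (Or.inl h1)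
  by_cases hD' : z' ∈ D G R x
  · obtain ⟨j, hj, rfl⟩ := h.circ.all z' hD'
    obtain ⟨t', h', e⟩ := rot1 hCR hW h hj
    rcases canI hCR hW h' hz e (fun s hs => by
      rcases hcov s hs with h1 | h1 | h1 | h1
      · exact Or.inr (Or.inr (Or.inl h1))
      · exact Or.inr (Or.inr (Or.inr h1))
      · exact Or.inl h1
      · exact Or.inr (Or.inl h1)) with ⟨t'', h'', h1, h2, h3⟩ | h1
    · obtain ⟨s, hs, e⟩ := rotk hCR hW h'' 3
      have e0 : s 0 = t'' 3 := e 0 (by norm_num)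
      have e1 : s 1 = t'' 4 := e 1 (by norm_num)
      have e2 : s 2 = t'' 5 := e 2 (by norm_num)
      have e3 : s 3 = t'' 0 := e 3 (by norm_num)
      have e4 : s 4 = t'' 1 := e 4 (by norm_num)
      have e5 : s 5 = t'' 2 := e 5 (by norm_num)
      obtain ⟨g1, g2, g3, g4⟩ := h3
      refine Or.inl ⟨s, hs, e1.trans h2, e4.trans h1, ?_, ?_, ?_, ?_⟩
      · rw [e1, e0]; exact g3
      · rw [e1, e2]; exact g4
      · rw [e4, e3]; exact g1
      · rw [e4, e5]; exact g2
    · exact Or.inr (Or.inr (Or.inl h1))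
  obtain ⟨m, hm, w⟩ := h.win z hz hD
  obtain ⟨m', hm', w'⟩ := h.win z' hz' hD'
  have adj : ∀ i < 6, G.Adj z (t i) ∨ G.Adj z' (t i) := by
    intro i hi
    have hmem := h.circ.mem i hi
    rcases hcov _ hmem with e | e | e | e
    · rw [e] at hmem
      exact absurd hmem hD
    · exact Or.inl e
    · rw [e] at hmem
      exact absurd hmem hD'
    · exact Or.inr e
  have key : ∀ i < 6, (i = m ∨ i = (m + 1) % 6 ∨ i = (m + 2) % 6) ∨
      (i = m' ∨ i = (m' + 1) % 6 ∨ i = (m' + 2) % 6) := by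
    intro i hi
    rcases adj i hi with e | e
    · exact Or.inl (w i hi e)
    · exact Or.inr (w' i hi e)
  have k0 := key 0 (by norm_num)
  have k1 := key 1 (by norm_num)
  have k2 := key 2 (by norm_num)
  have k3 := key 3 (by norm_num)
  have k4 := key 4 (by norm_num)
  have k5 := key 5 (by norm_num)
  have hmm : m' = (m + 3) % 6 := by omega
  obtain ⟨t', h', e⟩ := rotk hCR hW h m
  have hA : ∀ i < 3, G.Adj z (t' i) := by
    intro i hi
    rw [e i (by omega)]
    rcases adj ((i + m) % 6) (Nat.mod_lt _ (by norm_num)) with e | e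
    · exact e
    · have := w' _ (Nat.mod_lt _ (by norm_num)) e
      omega
  have hB : ∀ i < 3, G.Adj z' (t' (i + 3)) := by
    intro i hi
    rw [e (i + 3) (by omega)]
    rcases adj ((i + 3 + m) % 6) (Nat.mod_lt _ (by norm_num)) with e | e
    · have := w _ (Nat.mod_lt _ (by norm_num)) e
      omega
    · exact e
  exact Or.inr (Or.inr (Or.inr ⟨t', h', hD, hA 0 (by norm_num), hA 1 (by norm_num),
    hA 2 (by norm_num), hD', hB 0 (by norm_num), hB 1 (by norm_num), hB 2 (by norm_num)⟩))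

theorem d6 (hCI : CIStmt) (hCR : CRStmt) (hW : W6SStmt) (hGL : GLStmt) (hA : K6AStmt)
    (hB : K6BStmt) (hD : K6DStmt) (hE : K6EStmt) (hF : K6FStmt) : D6Stmt := by
  intro V G R hS x
  by_contra hc
  have hcard : (D G R x).card = 6 := by
    have := hS.deg x
    omega
  have hU : 5 ≤ (U G R x).card := by
    have h1 := card_U (G := G) R x
    have h2 := hS.card
    omega
  obtain ⟨u, hu, v, hv, huv, hadj⟩ := exists_nonadj hS.lf.pg _ hU
  have hDx : ∀ d ∈ D G R x, G.Adj x d := by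
    intro d hd
    unfold D at hd
    exact (Finset.mem_filter.1 hd).2
  obtain ⟨t0, ht0⟩ := hCI V G x (D G R x) hS.lf.pg hDx
  rw [hcard] at ht0
  have hW0 := hW V G R x t0 hS ht0
  have hux : u ≠ x ∧ ¬ G.Adj x u := by
    unfold U at hu
    exact (Finset.mem_filter.1 hu).2
  have hvx : v ≠ x ∧ ¬ G.Adj x v := by
    unfold U at hv
    exact (Finset.mem_filter.1 hv).2
  have huD : u ∉ D G R x := fun h => hux.2 (hDx u h)
  have hvD : v ∉ D G R x := fun h => hvx.2 (hDx v h)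
  have hne : (D G R x).Nonempty := by
    rw [← Finset.card_pos]
    omega
  have key := hGL V G (D G R x) x u v hS.lf.pg hux.1.symm hvx.1.symm huv hadj huD hvD hDx
    (fun t ht => rch_U hS.lf hu ht) (fun t ht => rch_U hS.lf hv ht) hne
  have hxD : ∀ t ∈ D G R x, t ≠ x := fun t ht => (hDx t ht).ne'
  have iso2 : ∀ t z, W6 G R x t → z ≠ x → z ∉ D G R x → ∀ i < 6, G.Adj z (t i) →
      G.Adj z (t ((i + 2) % 6)) → G.Adj (t ((i + 1) % 6)) (t i) ∧
      G.Adj (t ((i + 1) % 6)) (t ((i + 2) % 6)) := by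
    intro t z ht h1 h2 i hi h3 h4
    have := ht.iso z h1 h2 i hi h3 h4
    exact ⟨this.1, this.2.1⟩
  rcases key with ⟨a, ha, b, hb, ba, bb, hab, nab, cov⟩ | ⟨c, c', hc1, uc, vc, hc2, uc', vc', cov⟩ |
    ⟨c, a, ha, hc1, uc, vc, ba, cov⟩ | ⟨a, ha, ba, cov⟩
  · -- both bad
    rcases canon hCR hW hW0 (hxD a ha) (hxD b hb) cov with
      ⟨t, ht, rfl, rfl, g1, g2, g3, g4⟩ | ⟨t, ht, h1, g1, g2, h2, -⟩ |
      ⟨t, ht, h1, g1, g2, h2, -⟩ | ⟨t, ht, h1, -⟩
    · exact hA V G R x t u v ⟨ht, g1, g2, g3, g4, hu, hv, huv, hadj⟩ ba bb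
    · exact h2 hb
    · exact h2 ha
    · exact h1 ha
  · -- two common neighbours
    have mainB : ∀ z z' t, W6 G R x t → z ≠ x → G.Adj u z → G.Adj v z → G.Adj u z' →
        G.Adj v z' → CanB G R x t z z' → False := by
      rintro z z' t ht hz uz vz uz' vz' ⟨rfl, g1, g2, h1, a0, a1, a2⟩
      obtain ⟨i1, i2⟩ := iso2 t z ht hz h1 0 (by norm_num) a0 a2
      exact hD V G R x t u v z ⟨ht, i1, i2, g1, g2, hu, hv, huv, hadj⟩
        ⟨hz, h1, uz.symm, vz.symm, a0, a1, a2⟩ uz' vz'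
    rcases canon hCR hW hW0 hc1 hc2 cov with
      ⟨t, ht, rfl, rfl, g1, g2, g3, g4⟩ | ⟨t, ht, h1⟩ |
      ⟨t, ht, h1⟩ | ⟨t, ht, h1, a0, a1, a2, h2, a3, a4, a5⟩
    · obtain ⟨m, hm, w⟩ := ht.win u hux.1 huD
      have w1 := w 1 (by norm_num) uc
      have w4 := w 4 (by norm_num) uc'
      omega
    · exact mainB c' c t ht hc2 uc' vc' uc vc h1
    · exact mainB c c' t ht hc1 uc vc uc' vc' h1
    · obtain ⟨i1, i2⟩ := iso2 t c ht hc1 h1 0 (by norm_num) a0 a2
      obtain ⟨i3, i4⟩ := iso2 t c' ht hc2 h2 3 (by norm_num) a3 a5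
      exact hB V G R x t u v c c' ⟨ht, i1, i2, i3, i4, hu, hv, huv, hadj⟩
        ⟨hc1, h1, uc.symm, vc.symm, a0, a1, a2⟩ ⟨hc2, h2, uc'.symm, vc'.symm, a3, a4, a5⟩
  · -- one common neighbour, one bad vertex
    rcases canon hCR hW hW0 hc1 (hxD a ha) cov with
      ⟨t, ht, rfl, rfl, g1, g2, g3, g4⟩ | ⟨t, ht, h1, g1, g2, h2, -⟩ |
      ⟨t, ht, rfl, g1, g2, h2, a0, a1, a2⟩ | ⟨t, ht, h1, a0, a1, a2, h2, -⟩
    · exact hF V G R x t u v ⟨ht, g1, g2, g3, g4, hu, hv, huv, hadj⟩ uc vc ba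
    · exact h2 ha
    · obtain ⟨i1, i2⟩ := iso2 t c ht hc1 h2 0 (by norm_num) a0 a2
      exact hE V G R x t u v c ⟨ht, i1, i2, g1, g2, hu, hv, huv, hadj⟩
        ⟨hc1, h2, uc.symm, vc.symm, a0, a1, a2⟩ ba
    · exact h2 ha
  · -- one bad vertex
    rcases canon hCR hW hW0 (hxD a ha) (hxD a ha) (fun s hs => by
      rcases cov s hs with h | h
      · exact Or.inl h
      · exact Or.inr (Or.inl h)) with
      ⟨t, ht, h1, h2, -⟩ | ⟨t, ht, h1, g1, g2, h2, -⟩ |
      ⟨t, ht, h1, g1, g2, h2, -⟩ | ⟨t, ht, h2, -⟩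
    · exact neq ht (by norm_num) (by norm_num) (by norm_num) (h1.trans h2.symm)
    · exact h2 ha
    · exact h2 ha
    · exact h2 ha

end Pool.Agent.H67.RCQ.D6
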